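import Pool.Agent.Y107.MC.Defs
import Pool.Agent.Y107.SDDefs

/-!
# The defect of a Chow-Kunneth decomposition: definitions
-/

set_option autoImplicit false

open CategoryTheory AlgebraicGeometry

universe u v w

namespace Pool.Agent.Y107.MC

open Pool.Agent.H914 Pool.Agent.H914.VarClass Pool.Agent.H914.VarClass.Obj Pool.Agent.W492.BB
  Pool.Agent.TH133 Pool.Agent.W550.Corr

variable {k : Type u} [Field k] {𝒱 : VarClass k} {C : TheoryData.{u, v, 0} 𝒱 ℚ}

/-- All motives `(X, π_i)` have Chow coniveau at least `(i - n) / 2`. -/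
def DefectAtMost (C : TheoryData.{u, v, 0} 𝒱 ℚ) {X : 𝒱.Obj} (n : ℕ) (π : ℕ → C.A (X.prod X)) :
    Prop :=
  ∀ i : ℕ, ∃ c : ℕ, i ≤ 2 * c + n ∧ ChowConiveau C c (π i)

/-- The primitive part `Δ - (1 / D) ∑ h^j × h^(d-j)` of the diagonal of `X`, `d = dim X`. -/
noncomputable def primPart (C : TheoryData.{u, v, 0} 𝒱 ℚ) {X : 𝒱.Obj} (h : C.A X) (D : ℚ) :
    C.A (X.prod X) :=
  dg C X - D⁻¹ • ∑ j ∈ Finset.range (X.dim + 1), C.ext (h ^ j) (h ^ (X.dim - j))

variable {K : Type w} [Field K] (H : WeilTheoryData.{u, v, w} C K)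

/-- The theory of the Picard variety: a correspondence `Γ` of degree zero from `Z` to `Z'` which acts as
zero on `H^1` acts as zero on the homologically trivial divisor classes, with rational
coefficients. -/
def PicardProperty : Prop :=
  ∀ (Z Z' : 𝒱.Obj) (Γ : C.A (Z.prod Z')), C.Deg Z.dim Γ → Kills H Γ 1 →
    ∀ y : C.A Z, C.Deg 1 y → H.cl y = 0 → C.act Γ y = 0

/-- The finite products of varieties of the following kinds, with the defect `n`:

* `n = dim X`, and `X` has a Chow-Kunneth decomposition satisfying motivic hard Lefschetz for some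
  correspondence of degree one (for instance curves, surfaces, abelian varieties);
* `X` is a variety with a divisor class `h`, `h^(dim X)` of degree `D ≠ 0`, whose primitive part has
  cohomology in the middle degree only and is the direct factor of a sum of motives twisted by
  `m ≥ c`, and `dim X ≤ 2 c + n`. -/
inductive HasDefect : ℕ → 𝒱.Obj → Prop
  | lefschetz (X : 𝒱.Obj) (L : C.A (X.prod X)) (π : ℕ → C.A (X.prod X))
      (hL : C.Deg ((X.dim : ℤ) + 1) L) (hπ : IsCK H X π) (h : MotivicLefschetz C L π) :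
      HasDefect X.dim X
  | hypersurface (X : 𝒱.Obj) (h : C.A X) (D : ℚ) (c n : ℕ) (hh : C.Deg 1 h) (hD : D ≠ 0)
      (hdeg : HasDegree C (h ^ X.dim) D) (hc : ChowConiveau C c (primPart C h D))
      (hL : ∀ m : ℤ, m ≠ X.dim → Kills H (primPart C h D) m) (hn : X.dim ≤ 2 * c + n) :
      HasDefect n X
  | prod (m n : ℕ) (X Y : 𝒱.Obj) (hX : HasDefect m X) (hY : HasDefect n Y) :
      HasDefect (m + n) (X.prod Y)

/-- For the Chow-Kunneth decomposition `π` of `X` and all `i > 2 j` the projector `π_i` acts as zero on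
`CH^j(X)`, that is, `F^0 CH^j(X) = CH^j(X)`. -/
def SatisfiesB0 (C : TheoryData.{u, v, 0} 𝒱 ℚ) {X : 𝒱.Obj} (π : ℕ → C.A (X.prod X)) : Prop :=
  ∀ j : ℕ, ckFil C π j 0 = C.gr X j ∧ ∀ i : ℕ, 2 * j < i → ∀ x : C.A X, C.Deg j x →
    C.act (π i) x = 0

/-- For the Chow-Kunneth decomposition `π` of `X` and all `j` the projector `π_(2j)` acts as zero on the
homologically trivial cycles of codimension `j`, and `F^1 CH^j(X)` is the group of homologically
trivial cycles. -/
def SatisfiesD1 {X : 𝒱.Obj} (π : ℕ → C.A (X.prod X)) : Prop :=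
  ∀ (j : ℕ) (x : C.A X), (x ∈ ckFil C π j 1 ↔ C.Deg j x ∧ H.cl x = 0) ∧
    (C.Deg j x → H.cl x = 0 → C.act (π (2 * j)) x = 0)

end Pool.Agent.Y107.MC
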