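import Pool.Agent.Y107.MC.Hyp
import Pool.Agent.Y107.MC.DefectDefs

/-!
# The defect of a Chow-Kunneth decomposition
-/

set_option autoImplicit false
set_option linter.unusedSectionVars false

open CategoryTheory AlgebraicGeometry

universe u v w

namespace Pool.Agent.Y107.MC

open Pool.Agent.H914 Pool.Agent.H914.VarClass Pool.Agent.H914.VarClass.Obj Pool.Agent.W492.BB
  Pool.Agent.W550.Corr Pool.Agent.TH133 Pool.Agent.W484.CH

variable {k : Type u} [Field k] {𝒱 : VarClass k} {C : TheoryData.{u, v, 0} 𝒱 ℚ}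
  [hC : IsChowProj C] {X Y X' Y' Z W : 𝒱.Obj}

section chow

lemma ChowConiveau.mono {c c' : ℕ} {t : C.A (X.prod Y)} (h : ChowConiveau C c t) (hc : c' ≤ c) :
    ChowConiveau C c' t := by
  refine Submodule.span_mono ?_ h
  rintro _ ⟨Z, m, α, β, hm, hα, hβ, rfl⟩
  exact ⟨Z, m, α, β, hc.trans hm, hα, hβ, rfl⟩

lemma ChowConiveau.zero {c : ℕ} : ChowConiveau C c (0 : C.A (X.prod Y)) := Submodule.zero_mem _

lemma ChowConiveau.add {c : ℕ} {s t : C.A (X.prod Y)} (hs : ChowConiveau C c s)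
    (ht : ChowConiveau C c t) : ChowConiveau C c (s + t) := Submodule.add_mem _ hs ht

lemma ChowConiveau.sum {c : ℕ} {ι : Type*} (s : Finset ι) (t : ι → C.A (X.prod Y))
    (h : ∀ i ∈ s, ChowConiveau C c (t i)) : ChowConiveau C c (∑ i ∈ s, t i) :=
  Submodule.sum_mem _ h

include hC

lemma ChowConiveau.tens {c c' : ℕ} {t : C.A (X.prod Y)} (ht : ChowConiveau C c t)
    {t' : C.A (X'.prod Y')} (ht' : ChowConiveau C c' t') :
    ChowConiveau C (c + c') (tens C t t') := by
  unfold ChowConiveau FactorsThrough at ht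
  induction ht using Submodule.span_induction with
  | zero =>
    rw [tens_zero_left]
    exact Submodule.zero_mem _
  | add x y _ _ hx hy =>
    rw [SK.tens_add_left]
    exact Submodule.add_mem _ hx hy
  | smul r x _ hx =>
    rw [SK.tens_smul_left]
    exact Submodule.smul_mem _ _ hx
  | mem x hx =>
    obtain ⟨Z, m, α, β, hm, hα, hβ, rfl⟩ := hx
    unfold ChowConiveau FactorsThrough at ht'
    induction ht' using Submodule.span_induction with
    | zero =>
      rw [tens_zero_right]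
      exact Submodule.zero_mem _
    | add x y _ _ hx hy =>
      rw [SK.tens_add_right]
      exact Submodule.add_mem _ hx hy
    | smul r x _ hx =>
      rw [SK.tens_smul_right]
      exact Submodule.smul_mem _ _ hx
    | mem x hx =>
      obtain ⟨Z', m', α', β', hm', hα', hβ', rfl⟩ := hx
      refine Submodule.subset_span ⟨Z.prod Z', m + m', Pool.Agent.TH133.tens C α α',
        Pool.Agent.TH133.tens C β β', by omega, ?_, ?_, (SK.tens_comp4 _ _ _ _).symm⟩
      · have := tens_mem C hα hα'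
        rwa [show (X.dim : ℤ) - m + (X'.dim - m') = ((X.prod X').dim : ℤ) - ((m + m' : ℕ) : ℤ) by
          rw [dim_prod]; push_cast; ring] at this
      · have := tens_mem C hβ hβ'
        rwa [show (Z.dim : ℤ) + m + (Z'.dim + m') = ((Z.prod Z').dim : ℤ) + ((m + m' : ℕ) : ℤ) by
          rw [dim_prod]; push_cast; ring] at this

lemma prim_coniveau {P : SK.Pol C} {c : ℕ} (h : SK.HasConiveau P c) :
    ChowConiveau C c (SK.prim P) := by
  have h1 : ∀ t ∈ SK.twisted C c P.X P.X, ChowConiveau C c (tp C t) := by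
    intro t ht
    unfold SK.twisted at ht
    induction ht using Submodule.span_induction with
    | zero =>
      rw [tp_zero C]
      exact Submodule.zero_mem _
    | add s t _ _ hs ht =>
      rw [tp_add C]
      exact Submodule.add_mem _ hs ht
    | smul r t _ ht =>
      rw [tp_smul C]
      exact Submodule.smul_mem _ _ ht
    | mem t ht =>
      obtain ⟨Z, m, α, β, hm, hα, hβ, rfl⟩ := ht
      rw [tp_comp C (ch_comm C)]
      exact Submodule.subset_span ⟨Z, m, tp C β, tp C α, hm, tp_mem C hβ, tp_mem C hα, rfl⟩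
  have h2 := h1 _ h
  rwa [SK.tp_prim] at h2

lemma line_coniveau (P : SK.Pol C) {j : ℕ} (hj : j ≤ P.X.dim) : ChowConiveau C j (line P j) := by
  have h1 : C.act (C.ext (P.h ^ P.X.dim) (P.h ^ j)) (1 : C.A P.X) = P.D • P.h ^ j := by
    refine act_ext' (q := P.D) ?_
    rw [mul_one]
    exact P.degree
  have h2 : line P j = (P.D⁻¹ * P.D⁻¹) • C.comp (C.ext (P.h ^ (P.X.dim - j)) (1 : C.A P.X))
      (C.ext (P.h ^ P.X.dim) (P.h ^ j)) := by
    rw [SK.comp_ext, h1, line]
    have h3 : C.ext (P.h ^ (P.X.dim - j)) (P.D • P.h ^ j) =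
        P.D • C.ext (P.h ^ (P.X.dim - j)) (P.h ^ j) := by
      rw [TheoryData.ext, TheoryData.ext, map_smul, mul_smul_comm]
    rw [h3, smul_smul, mul_assoc, inv_mul_cancel₀ P.D_ne, mul_one]
  rw [h2]
  refine Submodule.smul_mem _ _ (Submodule.subset_span ⟨P.X, j, _, _, le_rfl, ?_, ?_, rfl⟩)
  · have := ext_mem' (C := C) (P.pow_mem (P.X.dim - j)) (C.one_mem P.X)
    rwa [show ((P.X.dim - j : ℕ) : ℤ) + 0 = (P.X.dim : ℤ) - j by omega] at this
  · exact ext_mem' (C := C) (P.pow_mem P.X.dim) (P.pow_mem j)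

/-- The defect of the decomposition of a variety like a hypersurface. -/
theorem ckH_defect' (P : SK.Pol C) {c n : ℕ} (h : ChowConiveau C c (SK.prim P))
    (hn : P.X.dim ≤ 2 * c + n) :
    DefectAtMost C n (ckH P) := by
  intro i
  have h1 : ChowConiveau C (i / 2)
      (if Even i ∧ i ≤ 2 * P.X.dim then line P (i / 2) else 0) := by
    split_ifs with h2
    · exact line_coniveau P (by omega)
    · exact ChowConiveau.zero
  by_cases hi : i = P.X.dim
  · rw [ckH, if_pos hi]
    by_cases h3 : Even i ∧ i ≤ 2 * P.X.dim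
    · refine ⟨min c (i / 2), ?_, (h.mono (min_le_left _ _)).add
        (h1.mono (min_le_right _ _))⟩
      obtain ⟨⟨a, ha⟩, -⟩ := h3
      rcases le_total c (i / 2) with h4 | h4
      · rw [min_eq_left h4]
        omega
      · rw [min_eq_right h4]
        omega
    · rw [if_neg h3, add_zero]
      exact ⟨c, by omega, h⟩
  · by_cases h3 : Even i ∧ i ≤ 2 * P.X.dim
    · refine ⟨i / 2, ?_, ?_⟩
      · obtain ⟨⟨a, ha⟩, -⟩ := h3
        omega
      · rw [ckH, if_neg hi, zero_add]
        exact h1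
    · rw [ckH_odd P hi h3]
      exact ⟨i, by omega, ChowConiveau.zero⟩

omit hC in
lemma DefectAtMost.mono {π : ℕ → C.A (X.prod X)} {m n : ℕ} (h : DefectAtMost C m π) (hmn : m ≤ n) :
    DefectAtMost C n π := by
  intro i
  obtain ⟨c, h1, h2⟩ := h i
  exact ⟨c, by omega, h2⟩

/-- Defects add up in products. -/
theorem prod_defect {π : ℕ → C.A (X.prod X)} {ρ : ℕ → C.A (Z.prod Z)} {m n : ℕ}
    (h : DefectAtMost C m π) (h' : DefectAtMost C n ρ) :
    DefectAtMost C (m + n) (prodCK C π ρ) := by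
  intro i
  refine ⟨(i + 1 - (m + n)) / 2, by omega, ChowConiveau.sum _ _ fun a ha => ?_⟩
  rw [Finset.mem_range] at ha
  obtain ⟨c, hc, h1⟩ := h a
  obtain ⟨c', hc', h2⟩ := h' (i - a)
  exact (h1.tens h2).mono (by omega)

end chow

variable {K : Type w} [Field K] {H : WeilTheoryData.{u, v, w} C K} [hH : IsWeilProj H]

include hC hH

theorem lefschetz_defect {L : C.A (X.prod X)} (hL : C.Deg ((X.dim : ℤ) + 1) L)
    {π : ℕ → C.A (X.prod X)} (hπ : IsCK H X π) (h : MotivicLefschetz C L π) :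
    DefectAtMost C X.dim π := by
  intro i
  by_cases hi : i ≤ 2 * X.dim
  · exact ⟨i - X.dim, by omega, lefschetz_coniveau hL hπ h i hi⟩
  · rw [hπ.out i (by omega)]
    exact ⟨i, by omega, ChowConiveau.zero⟩

theorem HasDefect.exists {n : ℕ} {X : 𝒱.Obj} (h : HasDefect H n X) :
    ∃ π, IsCK H X π ∧ DefectAtMost C n π := by
  induction h with
  | lefschetz X L π hL hπ h => exact ⟨π, hπ, lefschetz_defect hL hπ h⟩
  | hypersurface X h D c n hh hD hdeg hc hL hn =>
    let P : SK.Pol C := ⟨X, h, D, hh, hD, hdeg⟩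
    exact ⟨ckH P, ckH_isCK P hL, ckH_defect' P hc hn⟩
  | prod m n X Y _ _ hX hY =>
    obtain ⟨π, h1, h2⟩ := hX
    obtain ⟨ρ, h3, h4⟩ := hY
    exact ⟨prodCK C π ρ, h1.prod h3, prod_defect h2 h4⟩

theorem defect_B {π : ℕ → C.A (X.prod X)} (hπ : IsCK H X π) (hPic : SJ.PicardProperty H)
    (h : DefectAtMost C 4 π) : SatisfiesB0 C π := by
  choose c hc hc' using h
  intro j
  have h1 := murreB hπ hPic (fun i _ => hc' i) (fun i _ => hc i) j
  refine ⟨h1, fun i hi x hx => ?_⟩
  have h2 : x ∈ ckFil C π j 0 := by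
    rw [h1]
    exact hx
  exact ((hπ.mem_ckFil _ _ _).1 h2).2 i (by omega)

theorem defect_D {π : ℕ → C.A (X.prod X)} (hπ : IsCK H X π) (hPic : SJ.PicardProperty H)
    (h : DefectAtMost C 3 π) : SatisfiesD1 H π := by
  choose c hc hc' using h
  intro j x
  have h1 := murreD hπ hPic (fun i _ => hc' i) (fun i _ => hc i)
    (fun i _ => by have := hc (2 * i); omega) j x
  refine ⟨h1, fun hx hcl => ?_⟩
  have h2 : x ∈ ckFil C π j 1 := h1.2 ⟨hx, hcl⟩
  exact ((hπ.mem_ckFil _ _ _).1 h2).2 (2 * j) (by omega)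

end Pool.Agent.Y107.MC
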