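import Pool.Agent.Y107.MC.Defs
import Pool.Agent.Y107.SK.Conc
import Pool.Agent.TH133.Murre

/-!
# The coniveau criterion for the conjectures of Murre
-/

set_option autoImplicit false
set_option linter.unusedSectionVars false

open CategoryTheory AlgebraicGeometry

universe u v w

namespace Pool.Agent.Y107.MC

open Pool.Agent.H914 Pool.Agent.H914.VarClass Pool.Agent.H914.VarClass.Obj Pool.Agent.W492.BB
  Pool.Agent.W550.Corr Pool.Agent.TH133 Pool.Agent.W484.CH

variable {k : Type u} [Field k] {𝒱 : VarClass k} {C : TheoryData.{u, v, 0} 𝒱 ℚ}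
  [hC : IsChowProj C] {X Y Z W : 𝒱.Obj}

section chow

include hC

theorem dim_kills {i j : ℕ} {π : C.A (X.prod X)} (h : DimensionAtMost C i π) (hij : i < j)
    {x : C.A X} (hx : x ∈ C.gr X j) : C.act π x = 0 := by
  have h1 : ∀ t : C.A (X.prod X), DimensionAtMost C i t → C.act t x = 0 := by
    intro t ht
    unfold DimensionAtMost FactorsThrough at ht
    induction ht using Submodule.span_induction with
    | zero => exact C.act_zero x
    | add s t _ _ hs ht => rw [C.act_add, hs, ht, add_zero]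
    | smul r t _ ht => rw [SK.act_smul_left, ht, smul_zero]
    | mem t ht =>
      obtain ⟨Z, m, α, β, hm, hα, hβ, rfl⟩ := ht
      have h2 : C.act α x ∈ C.gr Z ((j : ℤ) - m) := SK.act_memZ hα hx (by ring)
      have h3 : C.act α x = 0 := SK.gr_top' h2 (by omega)
      rw [C.act_comp, h3, C.act_map_zero]
  exact h1 π h

end chow

variable {K : Type w} [Field K] {H : WeilTheoryData.{u, v, w} C K} [hH : IsWeilProj H]

include hC hH

/-- The key lemma: homologically trivial classes of small codimension. -/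
theorem kill {c : ℕ} {i : ℤ} {π : C.A (X.prod X)} (hπ : π ∈ C.gr (X.prod X) X.dim)
    (hidem : C.comp π π = π) (h : ChowConiveau C c π) (hK : ∀ m : ℤ, m ≠ i → Kills H π m)
    (hPic : SJ.PicardProperty H) {j : ℕ} (hj : j ≤ c + 1) (hi : (2 * j : ℤ) - 1 ≠ i)
    {y : C.A X} (hy : y ∈ C.gr X j) (hcl : H.cl y = 0) : C.act π y = 0 := by
  have hpp : ∀ z : C.A X, C.act π (C.act π z) = C.act π z := by
    intro z
    rw [← C.act_comp, hidem]
  have clact : ∀ {Z Z' : 𝒱.Obj} (Γ : C.A (Z.prod Z')) (z : C.A Z), H.cl z = 0 →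
      H.cl (C.act Γ z) = 0 := by
    intro Z Z' Γ z hz
    rw [cl_act H, hz, H.act_map_zero]
  have key : ∀ (Z : 𝒱.Obj) (m : ℕ) (α : C.A (X.prod Z)), c ≤ m →
      C.Deg ((X.dim : ℤ) - m) α → C.act α (C.act π y) = 0 := by
    intro Z m α hm hα
    have h1 : ∀ t : C.A (X.prod X), ChowConiveau C c t →
        C.act α (C.act π (C.act t y)) = 0 := by
      intro t ht
      unfold ChowConiveau FactorsThrough at ht
      induction ht using Submodule.span_induction with
      | zero => rw [C.act_zero, C.act_map_zero, C.act_map_zero]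
      | add s t _ _ hs ht => rw [C.act_add, act_map_add C, act_map_add C, hs, ht, add_zero]
      | smul r t _ ht => rw [SK.act_smul_left, act_map_smul C, act_map_smul C, ht, smul_zero]
      | mem t ht =>
        obtain ⟨Z', m', α', β', hm', hα', hβ', rfl⟩ := ht
        have hm'' : c ≤ m' := hm'
        rw [C.act_comp]
        have gz : C.act α' y ∈ C.gr Z' ((j : ℤ) - m') := SK.act_memZ hα' hy (by ring)
        have cz : H.cl (C.act α' y) = 0 := clact _ _ hcl
        rcases lt_trichotomy j m' with h2 | h2 | h2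
        · rw [SK.eq_zero_of_neg (by omega) gz, C.act_map_zero, C.act_map_zero, C.act_map_zero]
        · have gz' : C.Deg 0 (C.act α' y) := by
            rwa [show (j : ℤ) - m' = 0 by omega] at gz
          rw [SK.eq_zero_of_cl gz' cz, C.act_map_zero, C.act_map_zero, C.act_map_zero]
        · have h3 : (j : ℤ) - m' = 1 := by omega
          rw [h3] at gz
          have gw : C.act α (C.act π (C.act β' (C.act α' y))) ∈ C.gr Z ((j : ℤ) - m) := by
            have h4 : C.act β' (C.act α' y) ∈ C.gr X j := SK.act_memZ hβ' gz (by omega)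
            exact SK.act_memZ hα (SK.act_memZ hπ h4 (c := (j : ℤ)) (by ring)) (by ring)
          have cw : H.cl (C.act α (C.act π (C.act β' (C.act α' y)))) = 0 :=
            clact _ _ (clact _ _ (clact _ _ cz))
          rcases lt_trichotomy j m with h5 | h5 | h5
          · exact SK.eq_zero_of_neg (by omega) gw
          · rw [show (j : ℤ) - m = 0 by omega] at gw
            exact SK.eq_zero_of_cl gw cw
          · rw [← C.act_comp, ← C.act_comp]
            refine hPic Z' Z _ ?_ ?_ _ gz cz
            · exact SK.comp_memZ hβ' (SK.comp_memZ hπ hα (c := (X.dim : ℤ) - m)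
                (by ring)) (by omega)
            · intro a ha
              rw [actH_comp H, actH_comp H]
              have h6 : H.act (H.cl β') a ∈ H.gr X (2 * j - 1) :=
                SK.act_cl_memZ hβ' ha (by omega)
              rw [hK (2 * j - 1) hi _ h6, H.act_map_zero]
    have h2 := h1 π h
    rwa [hpp] at h2
  have h1 : ∀ t : C.A (X.prod X), ChowConiveau C c t → C.act t (C.act π y) = 0 := by
    intro t ht
    unfold ChowConiveau FactorsThrough at ht
    induction ht using Submodule.span_induction with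
    | zero => exact C.act_zero _
    | add s t _ _ hs ht => rw [C.act_add, hs, ht, add_zero]
    | smul r t _ ht => rw [SK.act_smul_left, ht, smul_zero]
    | mem t ht =>
      obtain ⟨Z, m, α, β, hm, hα, hβ, rfl⟩ := ht
      rw [C.act_comp, key Z m α hm hα, C.act_map_zero]
  have h2 := h1 π h
  rwa [hpp] at h2

variable {π : ℕ → C.A (X.prod X)}

theorem kills_ck (hπ : IsCK H X π) (i : ℕ) (m : ℤ) (hm : m ≠ i) : Kills H (π i) m :=
  fun a ha => hπ.act_ne i m a hm ha

/-- **(B)**, first half. -/
theorem murreB (hπ : IsCK H X π) (hPic : SJ.PicardProperty H) {c : ℕ → ℕ}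
    (hcon : ∀ i ≤ 2 * X.dim, ChowConiveau C (c i) (π i)) (hc : ∀ i ≤ 2 * X.dim, i ≤ 2 * c i + 4)
    (j : ℕ) : ckFil C π j 0 = C.gr X j := by
  ext x
  rw [hπ.mem_ckFil]
  refine ⟨fun h => h.1, fun hx => ⟨hx, fun i hi => ?_⟩⟩
  by_cases h1 : i ≤ 2 * X.dim
  · have h2 := hc i h1
    have h3 : C.act (π i) x = C.act (π i) (C.act (π i) x) := by
      rw [← C.act_comp, hπ.idem]
    rw [h3]
    refine kill (i := i) (hπ.deg i) (hπ.idem i) (hcon i h1) (kills_ck hπ i) hPic (j := j)
      (by omega) (by omega) (SK.act_memZ (hπ.deg i) hx (by ring)) ?_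
    rw [cl_act H]
    exact hπ.act_ne i (2 * j) _ (by omega) (H.cl_mem hx)
  · rw [hπ.out i (by omega), C.act_zero]

/-- **(B)**, second half. -/
theorem murreB' (hπ : IsCK H X π) (hdim : ∀ i < X.dim, DimensionAtMost C i (π i)) (j : ℕ) :
    ckFil C π j (j + 1) = ⊥ := by
  rw [eq_bot_iff]
  intro x hx
  rw [hπ.mem_ckFil] at hx
  rw [Submodule.mem_bot]
  by_cases hj : X.dim < j
  · exact SK.gr_top' hx.1 (by omega)
  have h1 : C.act (∑ i ∈ Finset.range (2 * X.dim + 1), π i) x = x := by
    rw [hπ.sum, act_dg]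
  rw [← h1, act_sum]
  refine Finset.sum_eq_zero fun i _ => ?_
  by_cases hi : j ≤ i
  · exact hx.2 i (by omega)
  · exact dim_kills (hdim i (by omega)) (by omega : i < j) hx.1

/-- **(D)**. -/
theorem murreD (hπ : IsCK H X π) (hPic : SJ.PicardProperty H) {c : ℕ → ℕ}
    (hcon : ∀ i ≤ 2 * X.dim, ChowConiveau C (c i) (π i))
    (hodd : ∀ i ≤ 2 * X.dim, i ≤ 2 * c i + 3) (heven : ∀ i ≤ X.dim, 2 * i ≤ 2 * c (2 * i) + 2)
    (j : ℕ) (x : C.A X) : x ∈ ckFil C π j 1 ↔ C.Deg j x ∧ H.cl x = 0 := by
  rw [hπ.mem_ckFil]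
  constructor
  · rintro ⟨hx, h⟩
    refine ⟨hx, ?_⟩
    have h1 : C.act (∑ i ∈ Finset.range (2 * X.dim + 1), π i) x = x := by
      rw [hπ.sum, act_dg]
    rw [← h1, act_sum, map_sum]
    refine Finset.sum_eq_zero fun i _ => ?_
    by_cases hi : 2 * j ≤ i
    · rw [h i (by omega), map_zero]
    · rw [cl_act H]
      exact hπ.act_ne i (2 * j) _ (by omega) (H.cl_mem hx)
  · rintro ⟨hx, hcl⟩
    refine ⟨hx, fun i hi => ?_⟩
    by_cases h1 : i ≤ 2 * X.dim
    · have h2 := hodd i h1
      have h3 : j ≤ c i + 1 := by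
        rcases Nat.lt_or_ge (2 * j) i with h4 | h4
        · omega
        · obtain rfl : i = 2 * j := by omega
          have h5 := heven j (by omega)
          omega
      exact kill (i := i) (hπ.deg i) (hπ.idem i) (hcon i h1) (kills_ck hπ i) hPic h3
        (by omega) hx hcl
    · rw [hπ.out i (by omega), C.act_zero]

end Pool.Agent.Y107.MC
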