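import Pool.Agent.Y107.SJ.Defs

/-!
# Chow-Kunneth decompositions with motives of large coniveau: definitions
-/

set_option autoImplicit false

open CategoryTheory AlgebraicGeometry

universe u v w

namespace Pool.Agent.Y107.MC

open Pool.Agent.H914 Pool.Agent.H914.VarClass Pool.Agent.H914.VarClass.Obj Pool.Agent.W492.BB
  Pool.Agent.TH133

variable {k : Type u} [Field k] {𝒱 : VarClass k} (C : TheoryData.{u, v, 0} 𝒱 ℚ) {X Y : 𝒱.Obj}

/-- The correspondence `Γ : X → Y` is a linear combination of compositions `X → Z → Y` which map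
`CH^j(X)` to `CH^(j-m)(Z)` and then to `CH^j(Y)`, for varieties `Z` and integers `m ≥ 0` with
`P Z m`. If `Γ = p` is idempotent, this means that the motive `(X, p)` is a direct factor of a sum of
motives `h(Z)(-m)` with `P Z m`. -/
def FactorsThrough (P : 𝒱.Obj → ℕ → Prop) (Γ : C.A (X.prod Y)) : Prop :=
  Γ ∈ Submodule.span ℚ {Γ | ∃ (Z : 𝒱.Obj) (m : ℕ) (α : C.A (X.prod Z)) (β : C.A (Z.prod Y)),
    P Z m ∧ C.Deg ((X.dim : ℤ) - m) α ∧ C.Deg ((Z.dim : ℤ) + m) β ∧ Γ = C.comp α β}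

/-- The motive `(X, Γ)` has Chow coniveau at least `c`: it is a direct factor of a sum of motives
`h(Z)(-m)`, `m ≥ c`. -/
def ChowConiveau (c : ℕ) (Γ : C.A (X.prod Y)) : Prop := FactorsThrough C (fun _ m => c ≤ m) Γ

/-- The motive `(X, Γ)` is a direct factor of a sum of motives `h(Z)(-m)`, `dim Z + m ≤ i`. -/
def DimensionAtMost (i : ℕ) (Γ : C.A (X.prod Y)) : Prop :=
  FactorsThrough C (fun Z m => Z.dim + m ≤ i) Γ

end Pool.Agent.Y107.MC
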