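import Pool.Agent.Y107.MC.Thm
import Pool.Agent.Y107.SJ.Bridge

/-!
# A Chow-Kunneth decomposition for varieties like hypersurfaces
-/

set_option autoImplicit false
set_option linter.unusedSectionVars false

open CategoryTheory AlgebraicGeometry

universe u v w

namespace Pool.Agent.Y107.MC

open Pool.Agent.H914 Pool.Agent.H914.VarClass Pool.Agent.H914.VarClass.Obj Pool.Agent.W492.BB
  Pool.Agent.W550.Corr Pool.Agent.TH133 Pool.Agent.W484.CH

variable {k : Type u} [Field k] {𝒱 : VarClass k} {C : TheoryData.{u, v, 0} 𝒱 ℚ}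
  [hC : IsChowProj C] {X Y Z W : 𝒱.Obj}

/-- The projector `(1 / D) h^(n-j) × h^j`. -/
noncomputable def line (P : SK.Pol C) (j : ℕ) : C.A (P.X.prod P.X) :=
  P.D⁻¹ • C.ext (P.h ^ (P.X.dim - j)) (P.h ^ j)

/-- The Chow-Kunneth decomposition: `π_(2j) = (1 / D) h^(n-j) × h^j` for `2 j ≠ n`, and
`π_n = prim`, plus `(1 / D) h^(n/2) × h^(n/2)` if `n` is even. -/
noncomputable def ckH (P : SK.Pol C) (i : ℕ) : C.A (P.X.prod P.X) :=
  (if i = P.X.dim then SK.prim P else 0) +
    (if Even i ∧ i ≤ 2 * P.X.dim then line P (i / 2) else 0)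

section chow

variable (P : SK.Pol C)

include hC

lemma line_mem {j : ℕ} (hj : j ≤ P.X.dim) : line P j ∈ C.gr (P.X.prod P.X) P.X.dim := by
  refine Submodule.smul_mem _ _ ?_
  have := ext_mem' (C := C) (P.pow_mem (P.X.dim - j)) (P.pow_mem j)
  rwa [show ((P.X.dim - j : ℕ) : ℤ) + (j : ℤ) = P.X.dim by omega] at this

lemma act_line {j i : ℕ} {x : C.A P.X} (hx : x ∈ C.gr P.X i) (hj : j ≤ P.X.dim) (hi : i ≠ j) :
    C.act (line P j) x = 0 := by
  rw [line, SK.act_smul_left, act_ext_zero_of_lt (C.mul_mem (P.pow_mem (P.X.dim - j)) hx)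
    (by omega), smul_zero]

lemma act_line_self {j : ℕ} (hj : j ≤ P.X.dim) : C.act (line P j) (P.h ^ j) = P.h ^ j := by
  rw [line, SK.act_smul_left, act_ext' (q := P.D), smul_smul, inv_mul_cancel₀ P.D_ne, one_smul]
  rw [← pow_add, Nat.sub_add_cancel hj]
  exact P.degree

lemma line_line {i j : ℕ} (hi : i ≤ P.X.dim) (hj : j ≤ P.X.dim) :
    C.comp (line P i) (line P j) = if i = j then line P i else 0 := by
  conv_lhs => rw [line, SK.smul_comp, SK.comp_ext]
  split_ifs with h
  · subst h
    rw [act_line_self P hi]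
    rfl
  · rw [act_line P (P.pow_mem i) hj h, C.ext_zero_right, smul_zero]

lemma line_prim {j : ℕ} : C.comp (line P j) (SK.prim P) = 0 := by
  rw [line, SK.smul_comp, SK.comp_ext, SK.act_prim_pow, C.ext_zero_right, smul_zero]

lemma tp_line {j : ℕ} (hj : j ≤ P.X.dim) : tp C (line P j) = line P (P.X.dim - j) := by
  rw [line, line, tp_smul C, tp_ext, show P.X.dim - (P.X.dim - j) = j by omega]

lemma prim_line {j : ℕ} (hj : j ≤ P.X.dim) : C.comp (SK.prim P) (line P j) = 0 := by
  have h1 : tp C (C.comp (SK.prim P) (line P j)) = 0 := by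
    rw [tp_comp C (ch_comm C), tp_line P hj, SK.tp_prim, line_prim]
  rw [← tp_tp C (C.comp (SK.prim P) (line P j)), h1, tp_zero C]

lemma triv_eq_sum : SK.triv P = ∑ j ∈ Finset.range (P.X.dim + 1), line P j := by
  rw [SK.triv, Finset.smul_sum, ← Finset.sum_range_reflect]
  refine Finset.sum_congr rfl fun j hj => ?_
  rw [Finset.mem_range] at hj
  rw [line, show P.X.dim + 1 - 1 - j = P.X.dim - j by omega,
    show P.X.dim - (P.X.dim - j) = j by omega]

lemma ckH_odd {i : ℕ} (h : i ≠ P.X.dim) (h2 : ¬ (Even i ∧ i ≤ 2 * P.X.dim)) : ckH P i = 0 := by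
  rw [ckH, if_neg h, if_neg h2, add_zero]

omit hC in
lemma sum_even {M : Type*} [AddCommMonoid M] (f : ℕ → M) (n : ℕ) :
    ∑ i ∈ Finset.range (2 * n + 1), (if Even i then f (i / 2) else 0) =
      ∑ j ∈ Finset.range (n + 1), f j := by
  induction n with
  | zero => simp
  | succ n ih =>
    rw [show 2 * (n + 1) + 1 = 2 * n + 1 + 1 + 1 by ring, Finset.sum_range_succ,
      Finset.sum_range_succ, ih, Finset.sum_range_succ _ (n + 1)]
    have h1 : ¬ Even (2 * n + 1) := by
      rw [Nat.not_even_iff_odd]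
      exact ⟨n, rfl⟩
    have h2 : Even (2 * n + 1 + 1) := ⟨n + 1, by ring⟩
    rw [if_neg h1, if_pos h2, add_zero, show (2 * n + 1 + 1) / 2 = n + 1 by omega]

lemma ckH_comp (i j : ℕ) : C.comp (ckH P i) (ckH P j) = if i = j then ckH P i else 0 := by
  have h1 : C.comp (if i = P.X.dim then SK.prim P else 0) (if j = P.X.dim then SK.prim P else 0) =
      if i = j then (if i = P.X.dim then SK.prim P else 0) else 0 := by
    by_cases hi : i = P.X.dim
    · by_cases hj : j = P.X.dim
      · rw [if_pos hi, if_pos hj, if_pos (hi.trans hj.symm), SK.prim_prim]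
      · rw [if_pos hi, if_neg hj, if_neg (by omega : i ≠ j), comp_zero C]
    · rw [if_neg hi, zero_comp C]
      split_ifs <;> rfl
  have h2 : C.comp (if i = P.X.dim then SK.prim P else 0)
      (if Even j ∧ j ≤ 2 * P.X.dim then line P (j / 2) else 0) = 0 := by
    by_cases hi : i = P.X.dim
    · by_cases hj : Even j ∧ j ≤ 2 * P.X.dim
      · rw [if_pos hi, if_pos hj, prim_line P (by omega)]
      · rw [if_neg hj, comp_zero C]
    · rw [if_neg hi, zero_comp C]
  have h3 : C.comp (if Even i ∧ i ≤ 2 * P.X.dim then line P (i / 2) else 0)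
      (if j = P.X.dim then SK.prim P else 0) = 0 := by
    by_cases hj : j = P.X.dim
    · by_cases hi : Even i ∧ i ≤ 2 * P.X.dim
      · rw [if_pos hi, if_pos hj, line_prim P]
      · rw [if_neg hi, zero_comp C]
    · rw [if_neg hj, comp_zero C]
  have h4 : C.comp (if Even i ∧ i ≤ 2 * P.X.dim then line P (i / 2) else 0)
      (if Even j ∧ j ≤ 2 * P.X.dim then line P (j / 2) else 0) =
      if i = j then (if Even i ∧ i ≤ 2 * P.X.dim then line P (i / 2) else 0) else 0 := by
    by_cases hi : Even i ∧ i ≤ 2 * P.X.dim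
    · by_cases hj : Even j ∧ j ≤ 2 * P.X.dim
      · rw [if_pos hi, if_pos hj, line_line P (by omega) (by omega)]
        obtain ⟨⟨a, ha⟩, hi'⟩ := hi
        obtain ⟨⟨b, hb⟩, hj'⟩ := hj
        by_cases hij : i = j
        · rw [if_pos hij, if_pos (by omega)]
        · rw [if_neg hij, if_neg (by omega)]
      · rw [if_neg hj, comp_zero C]
        split_ifs with h5
        · exact absurd (h5 ▸ hi) hj
        · rfl
    · rw [if_neg hi, zero_comp C]
      split_ifs <;> rfl
  rw [ckH, ckH, add_comp C, comp_add C, comp_add C, h1, h2, h3, h4, zero_add, add_zero]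
  split_ifs <;> simp

lemma ckH_sum : ∑ i ∈ Finset.range (2 * P.X.dim + 1), ckH P i = dg C P.X := by
  have h1 : ∑ i ∈ Finset.range (2 * P.X.dim + 1), (if i = P.X.dim then SK.prim P else 0) =
      SK.prim P := by
    rw [Finset.sum_ite_eq' (Finset.range (2 * P.X.dim + 1)) P.X.dim (fun _ => SK.prim P),
      if_pos (Finset.mem_range.2 (by omega))]
  have h2 : ∑ i ∈ Finset.range (2 * P.X.dim + 1),
      (if Even i ∧ i ≤ 2 * P.X.dim then line P (i / 2) else 0) = SK.triv P := by
    rw [triv_eq_sum, ← sum_even (line P) P.X.dim]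
    refine Finset.sum_congr rfl fun i hi => ?_
    rw [Finset.mem_range] at hi
    have h3 : (Even i ∧ i ≤ 2 * P.X.dim) ↔ Even i := ⟨fun h => h.1, fun h => ⟨h, by omega⟩⟩
    simp only [h3]
  have h3 : ∑ i ∈ Finset.range (2 * P.X.dim + 1), ckH P i =
      ∑ i ∈ Finset.range (2 * P.X.dim + 1), (if i = P.X.dim then SK.prim P else 0) +
      ∑ i ∈ Finset.range (2 * P.X.dim + 1),
        (if Even i ∧ i ≤ 2 * P.X.dim then line P (i / 2) else 0) := by
    rw [← Finset.sum_add_distrib]
    rfl
  rw [h3, h1, h2, ← SK.dg_eq P]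

lemma ckH_mem (i : ℕ) : C.Deg P.X.dim (ckH P i) := by
  refine Submodule.add_mem _ ?_ ?_
  · split_ifs
    · exact SK.prim_mem P
    · exact Submodule.zero_mem _
  · split_ifs with h
    · exact line_mem P (by omega)
    · exact Submodule.zero_mem _

lemma ckH_out {i : ℕ} (h : 2 * P.X.dim < i) : ckH P i = 0 :=
  ckH_odd P (by omega) (by omega)

/-- The decomposition is self-dual. -/
lemma ckH_dual : IsSelfDual C (ckH P) := by
  intro i hi
  rw [ckH, ckH, tp_add C]
  congr 1
  · by_cases h : i = P.X.dim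
    · rw [if_pos h, if_pos (by omega), SK.tp_prim]
    · rw [if_neg h, if_neg (by omega), tp_zero C]
  · by_cases h : Even i
    · have h' : Even (2 * P.X.dim - i) := by
        obtain ⟨a, ha⟩ := h
        exact ⟨P.X.dim - a, by omega⟩
      rw [if_pos ⟨h, hi⟩, if_pos ⟨h', by omega⟩, tp_line P (by omega)]
      obtain ⟨a, ha⟩ := h
      congr 1
      omega
    · have h' : ¬ Even (2 * P.X.dim - i) := by
        intro h2
        obtain ⟨a, ha⟩ := h2
        exact h ⟨P.X.dim - a, by omega⟩
      rw [if_neg (fun h3 => h h3.1), if_neg (fun h3 => h' h3.1), tp_zero C]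

end chow

section weil

variable {K : Type w} [Field K] {H : WeilTheoryData.{u, v, w} C K} [hH : IsWeilProj H]

include hC hH

lemma actH_ext_zero {v : C.A X} {α : C.A Y} {i m : ℤ} (hv : v ∈ C.gr X i) {a : H.A X}
    (ha : a ∈ H.gr X m) (hm : 2 * i + m ≠ 2 * X.dim) : H.act (H.cl (C.ext v α)) a = 0 := by
  have h0 : H.cl v * a ∈ H.gr X (2 * i + m) := H.mul_mem (H.cl_mem hv) ha
  have h1 : H.push (snd X Y) (H.pull (fst X Y) (H.cl v * a)) = 0 := by
    rcases lt_or_gt_of_ne hm with h | h
    · have h2 := H.push_mem (snd X Y) (H.pull_mem (fst X Y) h0)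
      rw [H.gr_neg Y _ (by rw [dim_prod]; push_cast; omega)] at h2
      exact (Submodule.mem_bot _).1 h2
    · rw [gr_top H (by omega), Submodule.mem_bot] at h0
      rw [h0, map_zero, map_zero]
  have h3 : H.cl (C.ext v α) = H.pull (fst X Y) (H.cl v) * H.pull (snd X Y) (H.cl α) := by
    rw [TheoryData.ext, map_mul, H.cl_pull, H.cl_pull]
  rw [h3, TheoryData.act_apply]
  have h2 : H.pull (fst X Y) (H.cl v) * H.pull (snd X Y) (H.cl α) * H.pull (fst X Y) a =
      H.pull (fst X Y) (H.cl v * a) * H.pull (snd X Y) (H.cl α) := by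
    rw [mul_assoc, ← H.cl_pull (snd X Y), H.cl_central, ← mul_assoc, map_mul]
  rw [h2, H.proj_right, h1, zero_mul]

lemma actH_line (P : SK.Pol C) {j : ℕ} (hj : j ≤ P.X.dim) {m : ℤ} {a : H.A P.X}
    (ha : a ∈ H.gr P.X m) (hm : m ≠ 2 * j) : H.act (H.cl (line P j)) a = 0 := by
  have h2 : line P j = C.ext (P.D⁻¹ • P.h ^ (P.X.dim - j)) (P.h ^ j) := by
    rw [line, TheoryData.ext, TheoryData.ext, map_smul, smul_mul_assoc]
  rw [h2]
  refine actH_ext_zero (Submodule.smul_mem _ _ (P.pow_mem (P.X.dim - j))) ha ?_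
  push_cast [Nat.cast_sub hj]
  omega

/-- The family is a Chow-Kunneth decomposition. -/
theorem ckH_isCK (P : SK.Pol C) (hL : ∀ m : ℤ, m ≠ P.X.dim → Kills H (SK.prim P) m) :
    IsCK H P.X (ckH P) := by
  have key : ∀ (i : ℕ) (m : ℤ) (a : H.A P.X), m ≠ i → a ∈ H.gr P.X m →
      H.act (H.cl (ckH P i)) a = 0 := by
    intro i m a hm ha
    rw [ckH, map_add, TheoryData.act_add]
    have h1 : H.act (H.cl (if i = P.X.dim then SK.prim P else 0)) a = 0 := by
      split_ifs with h
      · exact hL m (by omega) a ha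
      · rw [map_zero, TheoryData.act_zero]
    have h2 : H.act (H.cl (if Even i ∧ i ≤ 2 * P.X.dim then line P (i / 2) else 0)) a = 0 := by
      split_ifs with h
      · obtain ⟨⟨b, hb⟩, h'⟩ := h
        exact actH_line P (by omega) ha (by omega)
      · rw [map_zero, TheoryData.act_zero]
    rw [h1, h2, add_zero]
  have hout : ∀ i : ℕ, 2 * P.X.dim < i → ckH P i = 0 := fun i hi => ckH_out P hi
  have hact : ∀ (i : ℕ) (a : H.A P.X), a ∈ H.gr P.X i → H.act (H.cl (ckH P i)) a = a := by
    intro i a ha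
    by_cases hi : i ≤ 2 * P.X.dim
    · have h1 : H.act (H.cl (∑ j ∈ Finset.range (2 * P.X.dim + 1), ckH P j)) a = a := by
        rw [ckH_sum, actH_dg]
      conv_rhs => rw [← h1]
      rw [map_sum, act_sum, Finset.sum_eq_single i]
      · intro j _ hj
        exact key j i a (by exact_mod_cast hj.symm) ha
      · intro h
        exact absurd (Finset.mem_range.2 (by omega)) h
    · have h1 : a = 0 := by
        have h2 := ha
        rw [gr_top H (by omega), Submodule.mem_bot] at h2
        exact h2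
      rw [h1, TheoryData.act_map_zero]
  exact {
    deg := ckH_mem P
    out := hout
    idem := fun i => by rw [ckH_comp, if_pos rfl]
    orth := fun i j h => by rw [ckH_comp, if_neg h]
    sum := ckH_sum P
    act_self := fun i a ha => hact i a ha
    act_ne := fun i m a hm ha => key i m a hm ha }

end weil

end Pool.Agent.Y107.MC
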