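import Pool.Agent.Y107.MC.Crit
import Pool.Agent.Y107.SDDefs

/-!
# The conjectures of Murre for Chow-Kunneth decompositions of Lefschetz type
-/

set_option autoImplicit false
set_option linter.unusedSectionVars false

open CategoryTheory AlgebraicGeometry

universe u v w

namespace Pool.Agent.Y107.MC

open Pool.Agent.H914 Pool.Agent.H914.VarClass Pool.Agent.H914.VarClass.Obj Pool.Agent.W492.BB
  Pool.Agent.W550.Corr Pool.Agent.TH133 Pool.Agent.W484.CH

variable {k : Type u} [Field k] {𝒱 : VarClass k}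

/-- The powers of `L` factor through varieties of small dimension: for all `n < d = dim X` the
correspondence `L^(d-n)` is a composition `h(X) → h(Z) → h(X)(d-n)` with `dim Z = n`. For
`L = Δ_* D`, `D` very ample, `Z` is the intersection of `d - n` general members of the linear system
of `D`, the two maps being the restriction to `Z` and the push-forward. -/
def FactorsThroughSections (C : TheoryData.{u, v, 0} 𝒱 ℚ) {X : 𝒱.Obj} (L : C.A (X.prod X)) : Prop :=
  ∀ n < X.dim, ∃ (Z : 𝒱.Obj) (a : C.A (X.prod Z)) (b : C.A (Z.prod X)), Z.dim = n ∧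
    C.Deg X.dim a ∧ C.Deg X.dim b ∧ C.comp a b = corPow C L (X.dim - n)

variable {C : TheoryData.{u, v, 0} 𝒱 ℚ} [hC : IsChowProj C] {X Y Z W : 𝒱.Obj}

section chow

include hC

lemma coniveau_zero {Γ : C.A (X.prod X)} (h : C.Deg X.dim Γ) : ChowConiveau C 0 Γ := by
  refine Submodule.subset_span ⟨X, 0, dg C X, Γ, le_rfl, ?_, ?_, (dg_comp C _).symm⟩
  · have := dg_mem C X
    rwa [show (X.dim : ℤ) = X.dim - ((0 : ℕ) : ℤ) by push_cast; ring] at this
  · rwa [show (X.dim : ℤ) = X.dim + ((0 : ℕ) : ℤ) by push_cast; ring] at h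

lemma corPow_mem' {L : C.A (X.prod X)} (hL : C.Deg ((X.dim : ℤ) + 1) L) (n : ℕ) :
    C.Deg ((X.dim : ℤ) + n) (corPow C L n) := by
  induction n with
  | zero =>
    have := dg_mem C X
    rwa [show (X.dim : ℤ) = X.dim + ((0 : ℕ) : ℤ) by push_cast; ring] at this
  | succ n ih => exact SK.comp_memZ ih hL (by push_cast; ring)

theorem coniveau_lefschetz {L : C.A (X.prod X)} (hL : C.Deg ((X.dim : ℤ) + 1) L)
    {π : ℕ → C.A (X.prod X)} (hdeg : ∀ i, C.Deg X.dim (π i)) (h : MotivicLefschetz C L π) {n : ℕ}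
    (hn : n ≤ X.dim) : ChowConiveau C (X.dim - n) (π (2 * X.dim - n)) := by
  obtain ⟨g, hg, -, h2⟩ := h.iso n hn
  rw [← h2]
  refine Submodule.subset_span ⟨X, X.dim - n, C.comp (π (2 * X.dim - n)) g,
    corPow C L (X.dim - n), le_rfl, ?_, ?_, rfl⟩
  · refine SK.comp_memZ (hdeg _) hg ?_
    push_cast [Nat.cast_sub hn]
    ring
  · exact corPow_mem' hL _

theorem dimension_lefschetz {L : C.A (X.prod X)} (hs : FactorsThroughSections C L)
    {π : ℕ → C.A (X.prod X)} (hdeg : ∀ i, C.Deg X.dim (π i)) (h : MotivicLefschetz C L π) {n : ℕ}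
    (hn : n < X.dim) : DimensionAtMost C n (π n) := by
  obtain ⟨g, hg, h1, -⟩ := h.iso n hn.le
  obtain ⟨Z, a, b, hZ, ha, hb, hab⟩ := hs n hn
  rw [← h1, ← hab]
  refine Submodule.subset_span ⟨Z, 0, C.comp (π n) a, C.comp b g, by omega, ?_, ?_, ?_⟩
  · exact SK.comp_memZ (hdeg _) ha (by push_cast; ring)
  · refine SK.comp_memZ hb hg ?_
    rw [hZ]
    push_cast
    ring
  · rw [comp_assoc, comp_assoc, comp_assoc]

end chow

variable {K : Type w} [Field K] {H : WeilTheoryData.{u, v, w} C K} [hH : IsWeilProj H]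

include hC hH

theorem lefschetz_coniveau {L : C.A (X.prod X)} (hL : C.Deg ((X.dim : ℤ) + 1) L)
    {π : ℕ → C.A (X.prod X)} (hπ : IsCK H X π) (h : MotivicLefschetz C L π) (i : ℕ)
    (hi : i ≤ 2 * X.dim) : ChowConiveau C (i - X.dim) (π i) := by
  rcases le_total i X.dim with h1 | h1
  · rw [show i - X.dim = 0 by omega]
    exact coniveau_zero (hπ.deg i)
  · have := coniveau_lefschetz hL hπ.deg h (n := 2 * X.dim - i) (by omega)
    rwa [show X.dim - (2 * X.dim - i) = i - X.dim by omega,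
      show 2 * X.dim - (2 * X.dim - i) = i by omega] at this

/-- **(B)** in dimension at most four. -/
theorem murreB_lefschetz {L : C.A (X.prod X)} (hL : C.Deg ((X.dim : ℤ) + 1) L)
    (hPic : SJ.PicardProperty H) (hd : X.dim ≤ 4)
    {π : ℕ → C.A (X.prod X)} (hπ : IsCK H X π) (h : MotivicLefschetz C L π) (j : ℕ) :
    ckFil C π j 0 = C.gr X j :=
  murreB hπ hPic (lefschetz_coniveau hL hπ h) (fun i hi => by omega) j

theorem murreB'_lefschetz {L : C.A (X.prod X)} (hs : FactorsThroughSections C L)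
    {π : ℕ → C.A (X.prod X)} (hπ : IsCK H X π) (h : MotivicLefschetz C L π) (j : ℕ) :
    ckFil C π j (j + 1) = ⊥ :=
  murreB' hπ (fun i hi => dimension_lefschetz hs hπ.deg h hi) j

/-- **(D)** in dimension at most three. -/
theorem murreD_lefschetz {L : C.A (X.prod X)} (hL : C.Deg ((X.dim : ℤ) + 1) L)
    (hPic : SJ.PicardProperty H) (hd : X.dim ≤ 3)
    {π : ℕ → C.A (X.prod X)} (hπ : IsCK H X π) (h : MotivicLefschetz C L π) (j : ℕ) (x : C.A X) :
    x ∈ ckFil C π j 1 ↔ C.Deg j x ∧ H.cl x = 0 :=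
  murreD hπ hPic (lefschetz_coniveau hL hπ h) (fun i hi => by omega) (fun i hi => by omega) j x

end Pool.Agent.Y107.MC
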