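import Pool.Agent.Y107.MC.Lef
import Pool.Agent.Y107.SDMul

/-!
# The conjectures (B) and (D) of Murre for Chow-Kunneth decompositions of large coniveau
-/

set_option autoImplicit false
set_option linter.unusedSectionVars false

open CategoryTheory AlgebraicGeometry

universe u v w

namespace Pool.Agent.Y107.MC

open Pool.Agent.H914 Pool.Agent.H914.VarClass Pool.Agent.H914.VarClass.Obj Pool.Agent.W492.BB
  Pool.Agent.W550.Corr Pool.Agent.TH133 Pool.Agent.W484.CH

variable {k : Type u} [Field k] {𝒱 : VarClass k}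

/-- For the Chow-Kunneth decomposition `π` of `X` and all `j`: `F^0 CH^j(X) = CH^j(X)` and
`F^(j+1) CH^j(X) = 0`. -/
def SatisfiesB (C : TheoryData.{u, v, 0} 𝒱 ℚ) {X : 𝒱.Obj} (π : ℕ → C.A (X.prod X)) : Prop :=
  ∀ j : ℕ, ckFil C π j 0 = C.gr X j ∧ ckFil C π j (j + 1) = ⊥

/-- For the Chow-Kunneth decomposition `π` of `X` and all `j`: `F^1 CH^j(X)` is the group of
homologically trivial cycles. -/
def SatisfiesD {C : TheoryData.{u, v, 0} 𝒱 ℚ} {K : Type w} [Field K]
    (H : WeilTheoryData.{u, v, w} C K) {X : 𝒱.Obj} (π : ℕ → C.A (X.prod X)) : Prop :=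
  ∀ (j : ℕ) (x : C.A X), x ∈ ckFil C π j 1 ↔ C.Deg j x ∧ H.cl x = 0

variable {C : TheoryData.{u, v, 0} 𝒱 ℚ} [hC : IsChowProj C] {X : 𝒱.Obj}
  {K : Type w} [Field K] {H : WeilTheoryData.{u, v, w} C K} [hH : IsWeilProj H]

include hC hH

/-- A solution of the linear equation gives the conjectures (A) and (B) in dimension at most 4. -/
theorem exists_satisfiesB (hPic : SJ.PicardProperty H) (hd : X.dim ≤ 4) {L : C.A (X.prod X)}
    (hL : C.Deg ((X.dim : ℤ) + 1) L) (htp : tp C L = L) (hHL : HardLefschetzCor H X L)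
    (hs : FactorsThroughSections C L) (hS : InSquare C L) :
    ∃ π, SelfDualLefschetz H L π ∧ SatisfiesB C π := by
  obtain ⟨π, h1, h2, h3⟩ := (inSquare_iff_all (H := H) hL htp hHL).2.2.1 hS
  exact ⟨π, ⟨h1, h2, h3⟩, fun j => ⟨murreB_lefschetz hL hPic hd h1 h3 j,
    murreB'_lefschetz hs h1 h3 j⟩⟩

/-- A solution of the linear equation gives the conjectures (A), (B), (D) in dimension at most 3. -/
theorem exists_satisfiesD (hPic : SJ.PicardProperty H) (hd : X.dim ≤ 3) {L : C.A (X.prod X)}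
    (hL : C.Deg ((X.dim : ℤ) + 1) L) (htp : tp C L = L) (hHL : HardLefschetzCor H X L)
    (hS : InSquare C L) :
    ∃ π, SelfDualLefschetz H L π ∧ SatisfiesD H π := by
  obtain ⟨π, h1, h2, h3⟩ := (inSquare_iff_all (H := H) hL htp hHL).2.2.1 hS
  exact ⟨π, ⟨h1, h2, h3⟩, fun j x => murreD_lefschetz hL hPic hd h1 h3 j x⟩

end Pool.Agent.Y107.MC
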